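import Pool.Agent.H85.AECT.Main

set_option autoImplicit false

/-!
# AECs with closures over models that are almost rigid are tame

Let `K` be an abstract elementary class with amalgamation such that for all `M ≤ N` in `K` and all
`a` in `N` the closure of `M ∪ {a}` (the intersection of the strong substructures of `N` containing
it) is a strong substructure of `N`; every class admitting intersections has this property.

(1) If `κ` is regular, `θ ≥ LS(K)`, `θ ^ ν ≤ θ` for all `ν < κ`, and for all `M ≤ N` in `K` with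
`|M| ≤ θ` and `a` in `N` there is a set `X` of fewer than `κ` elements of the closure `C` of
`M ∪ {a}` such that every element of `C` has a finite orbit under the automorphisms of `C` fixing
`M ∪ {a} ∪ X`, then `K` is `(θ, ∞)`-tame.

(2) If `ν < H₁` and for all `M ≤ N` in `K` with `|M| < H₁` and `a` in `N` there is such an `X` with
at most `ν` elements, then `K` is `(H₁, ∞)`-tame.
-/

open FirstOrder FirstOrder.Language Cardinal

namespace Pool.Agent.Results.MP_c32da3_lc.AlmostRigidTame

universe w

open Pool.Agent.H85.AECT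

/-- The cardinal `H₁ = ℶ_{(2^{LS(K)})⁺}`. -/
noncomputable def hanf {L : FirstOrder.Language.{w, w}} (K : AEC L) : Cardinal.{w} :=
  Cardinal.beth (Order.succ ((2 : Cardinal.{w}) ^ K.LS)).ord

theorem tame_mono {L : FirstOrder.Language.{w, w}} {K : AEC L} {χ χ' : Cardinal.{w}}
    (h : χ ≤ χ') (hT : K.Tame χ) : K.Tame χ' := by
  intro M N₁ N₂ _ _ _ f₁ a₁ f₂ a₂ hf₁ hf₂ hs
  exact hT M N₁ N₂ f₁ a₁ f₂ a₂ hf₁ hf₂ fun M₀ hM₀ hc => hs M₀ hM₀ (hc.trans h)

/-- Let `K` be an AEC with amalgamation and closures over models. (1) If `κ` is regular,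
`θ ≥ LS(K)`, `θ ^ ν ≤ θ` for all `ν < κ` and closures over models of size at most `θ` are almost
rigid over fewer than `κ` elements, then `K` is `(θ, ∞)`-tame. (2) If, for a fixed `ν < H₁`,
closures over models of size less than `H₁` are almost rigid over at most `ν` elements, then `K`
is `(H₁, ∞)`-tame. -/
theorem result (L : FirstOrder.Language.{w, w}) (K : AEC L) (hAP : K.Amalgamation)
    (hI : K.HasClosures) :
    (∀ κ θ : Cardinal.{w}, κ.IsRegular → K.LS ≤ θ → (∀ ν < κ, θ ^ ν ≤ θ) →
      K.AlmostRigid κ θ → K.Tame θ) ∧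
    (∀ ν < hanf K, (∀ θ < hanf K, K.AlmostRigid (Order.succ ν) θ) → K.Tame (hanf K)) := by
  have main : ∀ κ θ : Cardinal.{w}, κ.IsRegular → K.LS ≤ θ → (∀ ν < κ, θ ^ ν ≤ θ) →
      K.AlmostRigid κ θ → K.Tame θ := fun κ θ hκ hLS hpow hAR =>
    AEC.tame_of_almostRigid hI hAP hκ hLS hpow hAR
  refine ⟨main, ?_⟩
  intro ν hν hAR
  have hLS0 : ℵ₀ ≤ K.LS := (AEC.ls_spec (K := K)).1
  have hlim : Cardinal.IsStrongLimit (hanf K) := by
    unfold hanf
    rw [Cardinal.isStrongLimit_beth]
    apply Order.IsSuccLimit.isSuccPrelimit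
    apply Cardinal.isSuccLimit_ord
    exact (hLS0.trans (Cardinal.cantor _).le).trans (Order.le_succ _)
  have hLSH : K.LS < hanf K := by
    unfold hanf
    exact ((Cardinal.cantor _).trans (Order.lt_succ _)).trans_le (Cardinal.le_beth_ord _)
  set μ := max ν K.LS with hμ
  have hμH : μ < hanf K := max_lt hν hLSH
  have hμ0 : ℵ₀ ≤ μ := hLS0.trans (le_max_right _ _)
  have hθH : (2 : Cardinal.{w}) ^ μ < hanf K := hlim.isStrongPrelimit hμH
  have hT : K.Tame (2 ^ μ) := by
    apply main (Order.succ μ) (2 ^ μ) (Cardinal.isRegular_succ hμ0)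
    · exact (le_max_right _ _).trans (Cardinal.cantor _).le
    · intro l hl
      have hl' : l ≤ μ := Order.lt_succ_iff.mp hl
      rw [← Cardinal.power_mul]
      apply Cardinal.power_le_power_left two_ne_zero
      exact (mul_le_mul' le_rfl hl').trans (Cardinal.mul_eq_self hμ0).le
    · intro N _ M a hM hc
      obtain ⟨X, hX, hXc, horb⟩ := hAR _ hθH N M a hM hc
      exact ⟨X, hX, hXc.trans_le (Order.succ_le_succ (le_max_left _ _)), horb⟩
  exact tame_mono hθH.le hT

end Pool.Agent.Results.MP_c32da3_lc.AlmostRigidTame
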