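import Pool.Agent.H81.FE.Ext

set_option autoImplicit false

/-!
# AECs with closures over models in which automorphisms of closures extend are tame

Let `K` be an abstract elementary class with amalgamation such that for all `M ≤ N` in `K` and all
`a` in `N` the closure `cl (M ∪ {a})` (the intersection of the strong substructures of `N`
containing it) is a strong substructure of `N`; every class admitting intersections has this
property. The automorphism groups of closures may be as large as possible and have large orbits.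

`ExtendsOverBase K κ θ` says: for all `M ≤ N` in `K` and all `a` in `N` there is `Q ≤ M` in `K` with
`|Q| < κ` such that whenever `Q ≤ M₁ ≤ M₂ ≤ M` in `K` and `|M₁| = |M₂| ≥ θ`, every automorphism of
`cl (M₁ ∪ {a})` which fixes `M₁` and `cl (Q ∪ {a})` pointwise extends to an automorphism of
`cl (M₂ ∪ {a})` which fixes `M₂ ∪ {a}` pointwise.

`ExtendsFrom K χ` says: for all `M₁ ≤ M₂ ≤ N` in `K` with `|M₁| = |M₂| ≥ χ` and all `a` in `N`
every automorphism of `cl (M₁ ∪ {a})` which fixes `M₁ ∪ {a}` pointwise extends to an automorphism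
of `cl (M₂ ∪ {a})` which fixes `M₂ ∪ {a}` pointwise.

`FewAuts K 1 χ θ⁺` says: for all `M ≤ N` in `K` with `|M| ≤ χ` and all `a` in `N` at most `θ`
automorphisms of `cl (M ∪ {a})` fix `M ∪ {a}` pointwise.

(1) Let `LS(K) < κ ≤ θ⁺`. If `ExtendsOverBase K κ θ`, and either `2 ^ χ ≤ θ` for all `χ < κ` or
`FewAuts K 1 χ θ⁺` for all `χ < κ`, then `K` is `(θ, ∞)`-tame.

(2) If `χ ≥ LS(K)` and `ExtendsOverBase K χ⁺ (2 ^ χ)` then `K` is `(2 ^ χ, ∞)`-tame.

(3) If `ExtendsOverBase K H₁ H₁` then `K` is `(H₁, ∞)`-tame.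

(4) If `χ ≥ LS(K)` and `ExtendsFrom K χ` then `K` is `(χ, ∞)`-tame.

(5) `H₁` is a strong limit cardinal greater than `LS(K)`.
-/

open FirstOrder FirstOrder.Language Cardinal

namespace Pool.Agent.Results.MP_c32da3_lc.ExtendingAutomorphisms

universe w

open Pool.Agent.H85.AECT Pool.Agent.H81.FB Pool.Agent.H81.FE

/-- The cardinal `H₁ = ℶ_{(2^{LS(K)})⁺}`. -/
noncomputable def hanf {L : FirstOrder.Language.{w, w}} (K : AEC L) : Cardinal.{w} :=
  Cardinal.beth (Order.succ ((2 : Cardinal.{w}) ^ K.LS)).ord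

/-- Let `K` be an AEC with amalgamation and closures over models. (1) If `LS(K) < κ ≤ θ⁺`,
automorphisms of closures over models of size at least `θ` which fix the closure over a base of
size less than `κ` extend to the closures over larger models of the same size, and `2 ^ χ ≤ θ` for
all `χ < κ` or the closures over models of size less than `κ` have at most `θ` automorphisms, then
`K` is `(θ, ∞)`-tame. (2), (3) The cases `κ = χ⁺`, `θ = 2 ^ χ` and `κ = θ = H₁`. (4) If all
automorphisms of closures over models of size at least `χ ≥ LS(K)` extend to the closures over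
larger models of the same size, then `K` is `(χ, ∞)`-tame. (5) `H₁` is a strong limit cardinal
greater than `LS(K)`. -/
theorem result (L : FirstOrder.Language.{w, w}) (K : AEC L) (hAP : K.Amalgamation)
    (hI : K.HasClosures) :
    (∀ κ θ : Cardinal.{w}, K.LS < κ → κ ≤ Order.succ θ →
      ((∀ χ < κ, 2 ^ χ ≤ θ) ∨ ∀ χ < κ, FewAuts K 1 χ (Order.succ θ)) →
      ExtendsOverBase K κ θ → K.Tame θ) ∧
    (∀ χ : Cardinal.{w}, K.LS ≤ χ → ExtendsOverBase K (Order.succ χ) (2 ^ χ) →
      K.Tame (2 ^ χ)) ∧
    (ExtendsOverBase K (hanf K) (hanf K) → K.Tame (hanf K)) ∧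
    (∀ χ : Cardinal.{w}, K.LS ≤ χ → ExtendsFrom K χ → K.Tame χ) ∧
    K.LS < hanf K ∧ (hanf K).IsStrongLimit := by
  have hLS0 : ℵ₀ ≤ K.LS := (AEC.ls_spec (K := K)).1
  have hlim : Cardinal.IsStrongLimit (hanf K) := by
    unfold hanf
    rw [Cardinal.isStrongLimit_beth]
    apply Order.IsSuccLimit.isSuccPrelimit
    apply Cardinal.isSuccLimit_ord
    exact (hLS0.trans (Cardinal.cantor _).le).trans (Order.le_succ _)
  have hlt : K.LS < hanf K := by
    unfold hanf
    exact ((Cardinal.cantor _).trans (Order.lt_succ _)).trans_le (Cardinal.le_beth_ord _)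
  have h1 : ∀ κ θ : Cardinal.{w}, K.LS < κ → κ ≤ Order.succ θ →
      ((∀ χ < κ, 2 ^ χ ≤ θ) ∨ ∀ χ < κ, FewAuts K 1 χ (Order.succ θ)) →
      ExtendsOverBase K κ θ → K.Tame θ := by
    intro κ θ hκ hκθ hA hE
    refine tame_of_extendsOverBase hI hAP hκ hκθ ?_ hE
    intro χ hχ hLS
    rcases hA with hA | hA
    · intro N _ M a hM hMc
      exact (autBound_two_pow hLS N M a hM hMc).trans (hA χ hχ)
    · exact autBound_of_few (hA χ hχ)
  refine ⟨h1, ?_, ?_, fun χ hLS hE => tame_of_extendsFrom hI hAP hLS hE, hlt, hlim⟩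
  · intro χ hLS hE
    refine h1 _ _ (hLS.trans_lt (Order.lt_succ χ)) ?_ (Or.inl ?_) hE
    · exact Order.succ_le_succ (Cardinal.cantor χ).le
    · intro ν hν
      exact Cardinal.power_le_power_left two_ne_zero (Order.lt_succ_iff.mp hν)
  · intro hE
    exact h1 _ _ hlt (Order.le_succ _) (Or.inl fun χ hχ => (hlim.isStrongPrelimit hχ).le) hE

end Pool.Agent.Results.MP_c32da3_lc.ExtendingAutomorphisms
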