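import Pool.Agent.H81.FC.Cor

set_option autoImplicit false

/-!
# AECs with closures over models that have few automorphisms up to finite orbits are tame

Let `K` be an abstract elementary class with amalgamation such that for all `M ≤ N` in `K` and all
`a` in `N` the closure of `M ∪ {a}` (the intersection of the strong substructures of `N` containing
it) is a strong substructure of `N`; every class admitting intersections has this property.

`FewUpToFinite K κ χ μ` says: for all `M ≤ N` in `K` with `|M| ≤ χ` and all `a` in `N` there are a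
set `X` of fewer than `κ` elements of the closure `C` of `M ∪ {a}` and a colouring with fewer than
`μ` colours of the automorphisms of `C` which fix `M ∪ {a} ∪ X` pointwise, such that for every `c`
in `C` there are only finitely many elements `g⁻¹ (g' c)` with `g`, `g'` of the same colour (for
example: the colour of `g` is its coset modulo a subgroup with finite orbits).

`FewAuts K κ χ μ` says: for all `M ≤ N` in `K` with `|M| ≤ χ` and all `a` in `N` there is a set `X`
of fewer than `κ` elements of the closure `C` of `M ∪ {a}` such that fewer than `μ` automorphisms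
of `C` fix `M ∪ {a} ∪ X` pointwise.

(1) Let `χ ≥ LS(K)`. If `FewUpToFinite K ℵ₀ χ (χ ^ ℵ₀)` or `FewUpToFinite K (cf χ) χ χ` then
`K` is `(2 ^ χ, ∞)`-tame; it is `(H₁, ∞)`-tame if moreover `χ < H₁`; and it is `(θ, ∞)`-tame for
each `θ ≥ χ` such that `FewAuts K 1 χ θ⁺` (at most `θ` automorphisms over `M ∪ {a}`).

(2) If `χ ≥ LS(K)` is a strong limit cardinal of countable cofinality and
`FewUpToFinite K ℵ₀ χ (2 ^ χ)` then `K` is `(2 ^ χ, ∞)`-tame, and `(H₁, ∞)`-tame if `χ < H₁`.

(3) `FewAuts K κ χ μ` implies `FewUpToFinite K κ χ μ`. If `μ > 1` then also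
`AlmostRigid K κ χ` (finite orbits over fewer than `κ` elements) implies
`FewUpToFinite K κ χ μ`.

(4) Let `θ ≥ LS(K)`. If `θ ^ ν ≤ θ` for all `ν < κ` and `FewAuts K κ θ θ` then `K` is
`(θ, ∞)`-tame. If `θ` is a strong limit cardinal and for all `M ≤ N` in `K` with `|M| ≤ θ` and all
`a` in `N` the closure of `M ∪ {a}` has fewer than `θ` elements outside `M`, then `K` is
`(θ, ∞)`-tame.

(5) If `FewAuts K (2 ^ LS(K))⁺ H₁ H₁` then `K` is `(H₁, ∞)`-tame.

(6) `H₁` is a strong limit cardinal greater than `LS(K)`.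
-/

open FirstOrder FirstOrder.Language Cardinal

namespace Pool.Agent.Results.MP_c32da3_lc.FewAutomorphisms

universe w

open Pool.Agent.H85.AECT Pool.Agent.H81.FB Pool.Agent.H81.FC

/-- The cardinal `H₁ = ℶ_{(2^{LS(K)})⁺}`. -/
noncomputable def hanf {L : FirstOrder.Language.{w, w}} (K : AEC L) : Cardinal.{w} :=
  Cardinal.beth (Order.succ ((2 : Cardinal.{w}) ^ K.LS)).ord

theorem tame_mono {L : FirstOrder.Language.{w, w}} {K : AEC L} {χ χ' : Cardinal.{w}}
    (h : χ ≤ χ') (hT : K.Tame χ) : K.Tame χ' := by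
  intro M N₁ N₂ _ _ _ f₁ a₁ f₂ a₂ hf₁ hf₂ hs
  exact hT M N₁ N₂ f₁ a₁ f₂ a₂ hf₁ hf₂ fun M₀ hM₀ hc => hs M₀ hM₀ (hc.trans h)

/-- Let `K` be an AEC with amalgamation and closures over models. (1) Let `χ ≥ LS(K)`. If closures
over models of size at most `χ` have, up to finite orbits, fewer than `χ ^ ℵ₀` automorphisms over
finite sets, or fewer than `χ` automorphisms over sets of fewer than `cf χ` elements, then `K` is
`(2 ^ χ, ∞)`-tame, and `(H₁, ∞)`-tame if `χ < H₁`, and `(θ, ∞)`-tame for each `θ ≥ χ` such that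
these closures have at most `θ` automorphisms. (2) If `χ ≥ LS(K)` is a strong limit cardinal of
countable cofinality and these closures have, up to finite orbits, fewer than `2 ^ χ` automorphisms
over finite sets, then `K` is `(2 ^ χ, ∞)`-tame, and `(H₁, ∞)`-tame if `χ < H₁`. (3) `FewAuts` and,
if `μ > 1`, `AlmostRigid` imply `FewUpToFinite`. (4) Let `θ ≥ LS(K)`. If `θ ^ ν ≤ θ` for all
`ν < κ`, and closures over models of size at most `θ` have fewer than `θ` automorphisms over sets
of fewer than `κ` elements, then `K` is `(θ, ∞)`-tame; and if `θ` is a strong limit cardinal and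
closures over models of size at most `θ` add fewer than `θ` elements, then `K` is `(θ, ∞)`-tame.
(5) If closures over models of size at most `H₁` have fewer than `H₁` automorphisms over sets of at
most `2 ^ LS(K)` elements, then `K` is `(H₁, ∞)`-tame. (6) `H₁` is a strong limit cardinal greater
than `LS(K)`. -/
theorem result (L : FirstOrder.Language.{w, w}) (K : AEC L) (hAP : K.Amalgamation)
    (hI : K.HasClosures) :
    (∀ χ : Cardinal.{w}, K.LS ≤ χ →
      (FewUpToFinite K ℵ₀ χ (χ ^ (ℵ₀ : Cardinal.{w})) ∨ FewUpToFinite K χ.ord.cof χ χ) →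
        K.Tame (2 ^ χ) ∧ (χ < hanf K → K.Tame (hanf K)) ∧
        ∀ θ : Cardinal.{w}, χ ≤ θ → FewAuts K 1 χ (Order.succ θ) → K.Tame θ) ∧
    (∀ χ : Cardinal.{w}, K.LS ≤ χ → χ.IsStrongLimit → χ.ord.cof = ℵ₀ →
      FewUpToFinite K ℵ₀ χ (2 ^ χ) → K.Tame (2 ^ χ) ∧ (χ < hanf K → K.Tame (hanf K))) ∧
    (∀ κ χ μ : Cardinal.{w}, (FewAuts K κ χ μ → FewUpToFinite K κ χ μ) ∧
      (1 < μ → K.AlmostRigid κ χ → FewUpToFinite K κ χ μ)) ∧
    (∀ θ : Cardinal.{w}, K.LS ≤ θ →
      (∀ κ : Cardinal.{w}, (∀ ν < κ, θ ^ ν ≤ θ) → FewAuts K κ θ θ → K.Tame θ) ∧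
      (θ.IsStrongLimit → SmallClosures K θ → K.Tame θ)) ∧
    (FewAuts K (Order.succ ((2 : Cardinal.{w}) ^ K.LS)) (hanf K) (hanf K) → K.Tame (hanf K)) ∧
    K.LS < hanf K ∧ (hanf K).IsStrongLimit := by
  have hLS0 : ℵ₀ ≤ K.LS := (AEC.ls_spec (K := K)).1
  have hlim : Cardinal.IsStrongLimit (hanf K) := by
    unfold hanf
    rw [Cardinal.isStrongLimit_beth]
    apply Order.IsSuccLimit.isSuccPrelimit
    apply Cardinal.isSuccLimit_ord
    exact (hLS0.trans (Cardinal.cantor _).le).trans (Order.le_succ _)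
  have hlt : K.LS < hanf K := by
    unfold hanf
    exact ((Cardinal.cantor _).trans (Order.lt_succ _)).trans_le (Cardinal.le_beth_ord _)
  have h1 : ∀ χ : Cardinal.{w}, K.LS ≤ χ →
      (FewUpToFinite K ℵ₀ χ (χ ^ (ℵ₀ : Cardinal.{w})) ∨ FewUpToFinite K χ.ord.cof χ χ) →
        K.Tame (2 ^ χ) ∧ (χ < hanf K → K.Tame (hanf K)) ∧
        ∀ θ : Cardinal.{w}, χ ≤ θ → FewAuts K 1 χ (Order.succ θ) → K.Tame θ := by
    intro χ hLS hF
    have hT : K.Tame (2 ^ χ) :=
      tame_of_boundC hI hAP hLS (Cardinal.cantor χ).le (autBound_two_pow hLS) hF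
    refine ⟨hT, fun hχ => tame_mono (hlim.isStrongPrelimit hχ).le hT, ?_⟩
    intro θ hχθ hA
    exact tame_of_boundC hI hAP hLS hχθ (autBound_of_few hA) hF
  have h3 : ∀ κ θ : Cardinal.{w}, K.LS ≤ θ → (∀ ν < κ, θ ^ ν ≤ θ) → FewAuts K κ θ θ →
      K.Tame θ := by
    intro κ θ hLS hpow hF
    obtain ⟨hA, hO⟩ := bound_of_over hLS hpow hF
    exact tame_of_boundC hI hAP hLS le_rfl hA (Or.inr (upToFinite_of_few hO))
  refine ⟨h1, ?_, fun κ χ μ => ⟨upToFinite_of_few, upToFinite_of_almostRigid⟩,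
    fun θ hLS => ⟨fun κ hpow hF => h3 κ θ hLS hpow hF, ?_⟩, ?_, hlt, hlim⟩
  · intro χ hLS hχ hcof hF
    obtain ⟨h4, h5, _⟩ := h1 χ hLS (Or.inl (hF.mono (two_power_le hχ hcof)))
    exact ⟨h4, h5⟩
  · intro hθ hS
    apply h3 1 θ hLS ?_ (over_of_smallClosures hθ hS)
    intro ν hν
    rw [Cardinal.lt_one_iff.mp hν, Cardinal.power_zero]
    exact Cardinal.one_le_aleph0.trans hθ.aleph0_le
  · apply h3 _ _ hlt.le
    intro ν hν
    apply power_le_of_lt_cof hlim
    unfold hanf
    rw [cof_beth (Cardinal.isRegular_succ (hLS0.trans (Cardinal.cantor _).le))]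
    exact hν

end Pool.Agent.Results.MP_c32da3_lc.FewAutomorphisms
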