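import Pool.Agent.H85.WS.Main

set_option autoImplicit false

/-!
# Stability implies tameness for AECs with closures and weakly stable independence

Let `K` be an abstract elementary class such that

* for all `M ≤ N` in `K` and `a` in `N` the closure of `M ∪ {a}` (the intersection of the strong
  substructures of `N` containing it) is a strong substructure of `N`, and
* `K` has a weakly stable independence notion: an invariant, symmetric and transitive relation
  between strong substructures `M₀ ≤ M₁, M₂` of `N` with existence and uniqueness of independent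
  amalgams.

(1) If `K` is Galois-stable in some `μ ≥ LS(K)` with `μ < μ ^ ℵ₀`, then `K` is `(χ, ∞)`-tame for all
`χ ≥ LS(K)`.

(2) If `K` is Galois-stable in every `μ ≥ μ₀`, for some `μ₀`, then `K` is `(χ, ∞)`-tame for all
`χ ≥ LS(K)`, in particular `(H₁, ∞)`-tame.
-/

open FirstOrder FirstOrder.Language Cardinal

namespace Pool.Agent.Results.MP_c32da3_lc.StableTame

universe w

open Pool.Agent.H85.AECT

theorem tame_mono {L : FirstOrder.Language.{w, w}} {K : AEC L} {χ χ' : Cardinal.{w}}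
    (h : χ ≤ χ') (hT : K.Tame χ) : K.Tame χ' := by
  intro M N₁ N₂ _ _ _ f₁ a₁ f₂ a₂ hf₁ hf₂ hs
  exact hT M N₁ N₂ f₁ a₁ f₂ a₂ hf₁ hf₂ fun M₀ hM₀ hc => hs M₀ hM₀ (hc.trans h)

/-- Let `K` be an AEC with closures over models and a weakly stable independence notion. (1) If
`K` is stable in some `μ ≥ LS(K)` with `μ < μ ^ ℵ₀`, then `K` is `(χ, ∞)`-tame for all
`χ ≥ LS(K)`. (2) The same holds if `K` is stable from some cardinal on. -/
theorem result (L : FirstOrder.Language.{w, w}) (K : AEC L) (hK : K.HasClosures)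
    (hI : Nonempty K.WeaklyStable) :
    ((∃ μ : Cardinal.{w}, K.LS ≤ μ ∧ μ < μ ^ ℵ₀ ∧ K.StableIn μ) →
      ∀ χ : Cardinal.{w}, K.LS ≤ χ → K.Tame χ) ∧
    ((∃ μ₀ : Cardinal.{w}, ∀ μ : Cardinal.{w}, μ₀ ≤ μ → K.StableIn μ) →
      ∀ χ : Cardinal.{w}, K.LS ≤ χ → K.Tame χ) := by
  obtain ⟨I⟩ := hI
  have main : (∃ μ : Cardinal.{w}, K.LS ≤ μ ∧ μ < μ ^ ℵ₀ ∧ K.StableIn μ) →
      ∀ χ : Cardinal.{w}, K.LS ≤ χ → K.Tame χ := by
    rintro ⟨μ, h1, h2, h3⟩ χ hχ
    exact tame_mono hχ (I.tame_of_stableIn hK le_rfl h1 h2 h3)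
  refine ⟨main, ?_⟩
  rintro ⟨μ₀, hμ₀⟩
  obtain ⟨μ, h1, h2⟩ := AEC.exists_lt_power (max μ₀ K.LS)
  exact main ⟨μ, (le_max_right _ _).trans h1, h2, hμ₀ μ ((le_max_left _ _).trans h1)⟩

end Pool.Agent.Results.MP_c32da3_lc.StableTame
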